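import Pool.Agent.Helper892.BP.Val
import Pool.Agent.Helper892.SW.Pig
import Pool.Agent.Helper892.SW.Param

/-!
The error term of the truncated inequality on the product of two lines.
-/

set_option autoImplicit false

open NumberField Module IsDedekindDomain

namespace Pool.Agent.Helper892.BP

open Pool.Agent.Helper892.ER Pool.Agent.Helper892.SE Pool.Agent.Helper892.ST
open Pool.Agent.Helper892.SW

variable {k : Type} [Field k] [NumberField k]

/-- comparison of powers with different exponents -/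
lemma rpow_half {β β' : ℝ} (hβ0 : 0 < β) (h : β < β') : ∃ C : ℝ, 0 ≤ C ∧ ∀ t : ℝ, 0 ≤ t →
    t ^ β ≤ (t / 2) ^ β' + C := by
  set H : ℝ := (2 : ℝ) ^ (β' / (β' - β)) with hH
  have hd : 0 < β' - β := by linarith
  have hH0 : 0 < H := Real.rpow_pos_of_pos (by norm_num) _
  refine ⟨H ^ β, Real.rpow_nonneg hH0.le _, fun t ht => ?_⟩
  rcases le_or_gt t H with h1 | h1
  · have h2 := Real.rpow_le_rpow ht h1 hβ0.le
    have h3 : 0 ≤ (t / 2) ^ β' := Real.rpow_nonneg (by linarith) _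
    linarith
  · have ht0 : 0 < t := hH0.trans h1
    have h2 : (2 : ℝ) ^ β' ≤ t ^ (β' - β) := by
      have h3 := Real.rpow_le_rpow hH0.le h1.le hd.le
      rw [hH, ← Real.rpow_mul (by norm_num), div_mul_cancel₀ _ hd.ne'] at h3
      exact h3
    have h4 : t ^ β * (2 : ℝ) ^ β' ≤ t ^ β' := by
      calc t ^ β * (2 : ℝ) ^ β' ≤ t ^ β * t ^ (β' - β) :=
            mul_le_mul_of_nonneg_left h2 (Real.rpow_nonneg ht _)
        _ = t ^ β' := by
            rw [← Real.rpow_add ht0]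
            congr 1
            ring
    have h5 : (t / 2) ^ β' = t ^ β' / (2 : ℝ) ^ β' := Real.div_rpow ht (by norm_num) _
    have h6 : (0 : ℝ) < (2 : ℝ) ^ β' := Real.rpow_pos_of_pos (by norm_num) _
    have h7 : t ^ β ≤ (t / 2) ^ β' := by
      rw [h5, le_div_iff₀ h6]
      exact h4
    have h8 : 0 ≤ H ^ β := Real.rpow_nonneg hH0.le _
    linarith

/-- a pair of natural numbers without its common factor -/
lemma reduce (y : Fin 2 → ℕ) (hy0 : ∀ i, 0 < y i) {R A m : ℕ} (hyR : ∀ i, y i ∣ R ^ A)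
    (hRodd : Nat.Coprime 2 R) (hym : ((2 ^ m : ℕ) : ℤ) ∣ (y 1 : ℤ) - y 0) :
    ∃ (g : ℕ) (x : Fin 2 → ℕ) (M : ℕ), 0 < g ∧ (∀ i, y i = g * x i) ∧ Finset.univ.gcd x = 1 ∧
      (∀ i, 0 < x i) ∧ (∀ i, x i ∣ R ^ A) ∧ ((2 ^ m : ℕ) : ℤ) ∣ (x 1 : ℤ) - x 0 ∧
      (∀ i, x i ≤ M) ∧ (∃ i, x i = M) ∧ 0 < M ∧ M ∣ R ^ A := by
  obtain ⟨x, hx, hgcd⟩ := Finset.extract_gcd y (Finset.univ_nonempty (α := Fin 2))
  set g : ℕ := Finset.univ.gcd y with hg
  have hx' : ∀ i, y i = g * x i := fun i => hx i (Finset.mem_univ i)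
  have hg0 : 0 < g := by
    rcases Nat.eq_zero_or_pos g with h | h
    · have := hx' 0
      rw [h, zero_mul] at this
      exact absurd this (hy0 0).ne'
    · exact h
  have hxpos : ∀ i, 0 < x i := by
    intro i
    rcases Nat.eq_zero_or_pos (x i) with h | h
    · have := hx' i
      rw [h, mul_zero] at this
      exact absurd this (hy0 i).ne'
    · exact h
  have hxR : ∀ i, x i ∣ R ^ A := fun i => (Dvd.intro_left g (hx' i).symm).trans (hyR i)
  have hgR : g ∣ R ^ A := (Dvd.intro (x 0) (hx' 0).symm).trans (hyR 0)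
  have hgodd : Nat.Coprime 2 g := Nat.Coprime.coprime_dvd_right hgR (hRodd.pow_right A)
  have hxm : ((2 ^ m : ℕ) : ℤ) ∣ (x 1 : ℤ) - x 0 := by
    have h1 := hym
    rw [hx' 1, hx' 0] at h1
    push_cast at h1
    rw [← mul_sub] at h1
    have h2 : IsCoprime ((2 ^ m : ℕ) : ℤ) (g : ℤ) := by
      rw [Nat.isCoprime_iff_coprime]
      exact Nat.Coprime.pow_left m hgodd
    push_cast at h2 ⊢
    exact h2.dvd_of_dvd_mul_left h1
  obtain ⟨i0, -, hi0⟩ := Finset.exists_max_image (Finset.univ : Finset (Fin 2)) x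
    Finset.univ_nonempty
  exact ⟨g, x, x i0, hg0, hx', hgcd, hxpos, hxR, hxm, fun i => hi0 i (Finset.mem_univ i),
    ⟨i0, rfl⟩, hxpos i0, hxR i0⟩

theorem main {d e d' e' μ : ℕ} (hμ : 1 ≤ μ) (F : MvPolynomial (Fin 2 ⊕ Fin 2) (𝓞 k)) (hF0 : F ≠ 0)
    (hFd : Bihom F d e) (hF : F ∈ idZ2 k ^ μ) (G : MvPolynomial (Fin 2 ⊕ Fin 2) k)
    (hG0 : G ≠ 0) (hGd : Bihom G d' e') (β : ℝ) (hβ0 : 0 < β) (hβ : β < μ / (μ + 1)) (T0 : ℝ) :
    ∃ (a b : Fin 2 → ℕ) (R A : ℕ), 0 < R ∧ (∀ i, 0 < a i) ∧ (∀ i, 0 < b i) ∧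
      (∀ i, a i ∣ R ^ A) ∧ (∀ i, b i ∣ R ^ A) ∧ ev2 F a b ≠ 0 ∧
      MvPolynomial.eval (Sum.elim (fun i => ((a i : ℕ) : k)) (fun j => ((b j : ℕ) : k))) G ≠ 0 ∧
      T0 < Height.logHeight (fun i => ((a i : ℕ) : k)) +
        Height.logHeight (fun i => ((b i : ℕ) : k)) ∧
      ∀ V : Set (HeightOneSpectrum (𝓞 k)),
      (∀ q ∈ V, ((R : ℕ) : 𝓞 k) ∈ q.asIdeal ∨ ((2 : ℕ) : 𝓞 k) ∈ q.asIdeal ∨
        ev2 F a b ∈ q.asIdeal) →
      ∑ᶠ q ∈ V, Real.log (Ideal.absNorm q.asIdeal : ℕ) +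
        (Height.logHeight (fun i => ((a i : ℕ) : k)) +
          Height.logHeight (fun i => ((b i : ℕ) : k))) ^ β ≤
        d * Height.logHeight (fun i => ((a i : ℕ) : k)) +
          e * Height.logHeight (fun i => ((b i : ℕ) : k)) := by
  classical
  have hμr : (1 : ℝ) ≤ μ := by exact_mod_cast hμ
  obtain ⟨β', hββ', hβ'⟩ := exists_between hβ
  have hβ'2 : β' < (μ : ℝ) / (1 + μ) := by rwa [add_comm]
  have hβ1 : β < 1 := by
    refine hβ.trans_le ?_
    rw [div_le_one (by linarith)]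
    linarith
  obtain ⟨C1, hC10, hC1⟩ := rpow_half hβ0 hββ'
  obtain ⟨C, hC0, hC⟩ := norm_le2 F hFd
  set F' := F.map (algebraMap (𝓞 k) k) with hF'
  have hF'0 : F' ≠ 0 := by
    intro h
    apply hF0
    have hinj : Function.Injective (algebraMap (𝓞 k) k) := RingOfIntegers.coe_injective
    exact (MvPolynomial.map_injective _ hinj) (by rw [← hF', h, map_zero])
  have hF'd : Bihom F' d e := by
    intro s hs
    apply hFd
    intro h
    apply hs
    rw [hF', MvPolynomial.coeff_map, h, map_zero]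
  set D : ℕ := (F' * G).totalDegree with hD
  set t : ℕ := D + 1 with ht
  have hDt : D ≤ 2 ^ t := by
    have : D < 2 ^ D := Nat.lt_two_pow_self
    have h2 : 2 ^ D ≤ 2 ^ t := Nat.pow_le_pow_right (by norm_num) (by omega)
    omega
  have hl2 : 0 < Real.log 2 := Real.log_pos (by norm_num)
  set E : ℝ := (d + e + 1) * (|T0| + 1) with hE
  have hde : (1 : ℝ) ≤ d + e + 1 := by
    have h1 : (0 : ℝ) ≤ d := Nat.cast_nonneg _
    have h2 : (0 : ℝ) ≤ e := Nat.cast_nonneg _
    linarith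
  have hE1 : 1 ≤ E := by
    have h2 : (1 : ℝ) ≤ |T0| + 1 := by
      have := abs_nonneg T0
      linarith
    rw [hE]
    nlinarith
  have hlC : 0 ≤ Real.log C := Real.log_nonneg hC0
  obtain ⟨Y, A, m1, hpig, hT0, hpar⟩ := params μ β' (by linarith) (hβ0.trans hββ') hβ'2
    (Real.log 2 + Real.log C + μ * (t * Real.log 2) + E + C1) (t * Real.log 2)
  have hm1t : t ≤ m1 := by
    have h1 : (t : ℝ) ≤ m1 := le_of_mul_le_mul_right hT0 hl2
    exact_mod_cast h1
  set m : ℕ := m1 - t with hm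
  have hm1 : m1 = m + t := by omega
  set R : ℕ := ∏ p ∈ TT Y, p with hR
  have hR0 : 0 < R := Finset.prod_pos fun p hp => (mem_TT hp).1.pos
  obtain ⟨W, hWc, hWd, hWm⟩ := pigW 2 Nat.prime_two (TT Y) (fun p hp => (mem_TT hp).1) A m D (by
    refine lt_of_le_of_lt ?_ hpig
    rw [hm1, pow_add]
    exact Nat.mul_le_mul_left _ hDt)
  -- the point
  have hcastinj : Function.Injective (fun w : ℕ => (w : k)) := Nat.cast_injective
  have hex : ∃ x : Fin 2 ⊕ Fin 2 → k, (∀ i, x i ∈ W.image (fun w : ℕ => (w : k))) ∧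
      MvPolynomial.eval x (F' * G) ≠ 0 := by
    by_contra hcon
    push Not at hcon
    refine mul_ne_zero hF'0 hG0 (MvPolynomial.eq_zero_of_eval_zero_at_prod_finset (F' * G)
      (fun _ => W.image (fun w : ℕ => (w : k))) (fun i => ?_) hcon)
    rw [Finset.card_image_of_injective _ hcastinj]
    exact (MvPolynomial.degreeOf_le_totalDegree _ _).trans_lt hWc
  obtain ⟨x0, hx0W, hx0FG⟩ := hex
  have hch : ∀ i, ∃ w ∈ W, (w : k) = x0 i := fun i => by
    obtain ⟨w, hw, h⟩ := Finset.mem_image.1 (hx0W i)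
    exact ⟨w, hw, h⟩
  choose y hyW hyx using hch
  have hRodd : Nat.Coprime 2 R := by
    refine Nat.Coprime.prod_right fun p hp => ?_
    exact (Nat.coprime_primes Nat.prime_two (mem_TT hp).1).2 (mem_TT hp).2.symm
  obtain ⟨g, a, M, hg0, hya, hgcda, hapos, haR, ham, hMle, hMex, hMpos, hMR⟩ :=
    reduce (fun i => y (Sum.inl i)) (fun i => (hWd _ (hyW _)).1) (fun i => (hWd _ (hyW _)).2)
      hRodd (hWm _ (hyW _) _ (hyW _))
  obtain ⟨g', b, M', hg'0, hyb, hgcdb, hbpos, hbR, hbm, hM'le, hM'ex, hM'pos, hM'R⟩ :=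
    reduce (fun i => y (Sum.inr i)) (fun i => (hWd _ (hyW _)).1) (fun i => (hWd _ (hyW _)).2)
      hRodd (hWm _ (hyW _) _ (hyW _))
  have hx0y : x0 = Sum.elim (fun i => (g : k) * ((a i : ℕ) : k))
      (fun j => (g' : k) * ((b j : ℕ) : k)) := by
    funext i
    rcases i with i | i
    · rw [← hyx, Sum.elim_inl]
      have := hya i
      rw [this]
      push_cast
      rfl
    · rw [← hyx, Sum.elim_inr]
      have := hyb i
      rw [this]
      push_cast
      rfl
  rw [hx0y, map_mul, scale2 hF'd, scale2 hGd] at hx0FG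
  have hxF : ev2 F a b ≠ 0 := by
    intro h
    apply hx0FG
    rw [← ev2_coe, h]
    simp
  have hxG : MvPolynomial.eval
      (Sum.elim (fun i => ((a i : ℕ) : k)) (fun j => ((b j : ℕ) : k))) G ≠ 0 := by
    intro h
    apply hx0FG
    rw [h]
    simp
  -- the heights
  have hhta := ht_nat (k := k) a hapos hgcda M hMle hMex
  have hhtb := ht_nat (k := k) b hbpos hgcdb M' hM'le hM'ex
  set N : ℝ := (finrank ℚ k : ℝ) with hN
  have hN1 : 1 ≤ N := by
    have : 0 < finrank ℚ k := finrank_pos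
    rw [hN]
    exact_mod_cast this
  have hlM : 0 ≤ Real.log M := Real.log_natCast_nonneg M
  have hlM' : 0 ≤ Real.log M' := Real.log_natCast_nonneg M'
  have hlMA : Real.log M ≤ A * Real.log (R : ℝ) := by
    rw [← Real.log_pow]
    apply Real.log_le_log (by exact_mod_cast hMpos)
    exact_mod_cast Nat.le_of_dvd (pow_pos hR0 _) hMR
  have hlM'A : Real.log M' ≤ A * Real.log (R : ℝ) := by
    rw [← Real.log_pow]
    apply Real.log_le_log (by exact_mod_cast hM'pos)
    exact_mod_cast Nat.le_of_dvd (pow_pos hR0 _) hM'R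
  set L : ℝ := Real.log M + Real.log M' with hL
  have hL0 : 0 ≤ L := by linarith
  have hp := hpar (L / 2) (by linarith) (by linarith)
  have hp2 := hC1 L hL0
  have hm1r : (m1 : ℝ) = m + t := by
    rw [hm1]
    push_cast
    ring
  have hbound : ∀ V : Set (HeightOneSpectrum (𝓞 k)),
      (∀ q ∈ V, ((R : ℕ) : 𝓞 k) ∈ q.asIdeal ∨ ((2 : ℕ) : 𝓞 k) ∈ q.asIdeal ∨
        ev2 F a b ∈ q.asIdeal) →
      ∑ᶠ q ∈ V, Real.log (Ideal.absNorm q.asIdeal : ℕ) + N * L ^ β + N * E ≤
        d * (N * Real.log M) + e * (N * Real.log M') := by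
    intro V hV
    obtain ⟨z, hz⟩ := ev2_dvd hF a b (2 ^ m) ham hbm
    rw [← pow_mul] at hz
    have h1 := count_gen (ev2 F a b) z hxF R 2 (m * μ) hR0 (by norm_num) hz V hV
    have h2 := hC a b M M' hMle hM'le
    have hMr : (0 : ℝ) < M := by exact_mod_cast hMpos
    have hM'r : (0 : ℝ) < M' := by exact_mod_cast hM'pos
    have hNy : (0 : ℝ) < (Ideal.absNorm (Ideal.span {ev2 F a b}) : ℕ) := by
      have : 0 < Ideal.absNorm (Ideal.span {ev2 F a b}) := by
        rw [Nat.pos_iff_ne_zero, Ne, Ideal.absNorm_eq_zero_iff, Ideal.span_singleton_eq_bot]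
        exact hxF
      exact_mod_cast this
    have h3 := Real.log_le_log hNy h2
    rw [Real.log_mul (by linarith) (by positivity), Real.log_pow,
      Real.log_mul (by positivity) (by positivity), Real.log_pow, Real.log_pow] at h3
    rw [hm1r] at hp
    have h4 : Real.log (R : ℝ) + Real.log 2 + L ^ β + Real.log C + E ≤
        μ * (m * Real.log 2) := by
      linarith
    have h5 := mul_le_mul_of_nonneg_left h4 (zero_le_one.trans hN1)
    have h6 : Real.log C ≤ N * Real.log C := by nlinarith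
    push_cast at h1
    nlinarith
  have hrp : (N * L) ^ β ≤ N * L ^ β := by
    rw [Real.mul_rpow (by linarith) hL0]
    refine mul_le_mul_of_nonneg_right ?_ (Real.rpow_nonneg hL0 _)
    calc N ^ β ≤ N ^ (1 : ℝ) := Real.rpow_le_rpow_of_exponent_le hN1 hβ1.le
      _ = N := Real.rpow_one N
  have hsum : N * Real.log M + N * Real.log M' = N * L := by
    rw [hL]
    ring
  refine ⟨a, b, R, A, hR0, hapos, hbpos, haR, hbR, hxF, hxG, ?_, fun V hV => ?_⟩
  · rw [hhta, hhtb]
    have h1 := hbound ∅ (fun q hq => absurd hq (Set.notMem_empty q))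
    rw [finsum_mem_empty, zero_add] at h1
    have h2 : 0 ≤ N * L ^ β := mul_nonneg (by linarith) (Real.rpow_nonneg hL0 _)
    have h3 : E ≤ N * E := by nlinarith
    have h5 : 0 ≤ N * Real.log M := mul_nonneg (by linarith) hlM
    have h5' : 0 ≤ N * Real.log M' := mul_nonneg (by linarith) hlM'
    have hd0 : (0 : ℝ) ≤ d := Nat.cast_nonneg _
    have he0 : (0 : ℝ) ≤ e := Nat.cast_nonneg _
    have h6 : (d : ℝ) * (N * Real.log M) + e * (N * Real.log M') ≤
        (d + e + 1) * (N * Real.log M + N * Real.log M') := by nlinarith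
    have h7 : (d + e + 1 : ℝ) * (|T0| + 1) ≤
        (d + e + 1) * (N * Real.log M + N * Real.log M') := by
      rw [← hE]
      linarith
    have h8 : |T0| + 1 ≤ N * Real.log M + N * Real.log M' :=
      le_of_mul_le_mul_left h7 (by linarith)
    have := le_abs_self T0
    linarith
  · rw [hhta, hhtb, hsum]
    have h1 := hbound V hV
    have h2 : 0 ≤ N * E := mul_nonneg (by linarith) (by linarith)
    linarith

end Pool.Agent.Helper892.BP
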