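import Pool.Agent.Helper892.SW.Cnt

/-!
Values of a bihomogeneous form with integral coefficients at tuples of natural numbers.
-/

set_option autoImplicit false

open NumberField Module IsDedekindDomain

namespace Pool.Agent.Helper892.BP

open Pool.Agent.Helper892.ER Pool.Agent.Helper892.SE Pool.Agent.Helper892.ST
open Pool.Agent.Helper892.SW

/-- bihomogeneous of bidegree `(d, e)` -/
def Bihom {R : Type} [CommRing R] (F : MvPolynomial (Fin 2 ⊕ Fin 2) R) (d e : ℕ) : Prop :=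
  F.IsWeightedHomogeneous
    (Sum.elim (fun _ : Fin 2 => ((1, 0) : ℕ × ℕ)) (fun _ : Fin 2 => ((0, 1) : ℕ × ℕ))) (d, e)

lemma degs {R : Type} [CommRing R] {F : MvPolynomial (Fin 2 ⊕ Fin 2) R} {d e : ℕ}
    (hF : Bihom F d e) {s : Fin 2 ⊕ Fin 2 →₀ ℕ} (hs : s ∈ F.support) :
    ∑ i, s (Sum.inl i) = d ∧ ∑ j, s (Sum.inr j) = e := by
  have h := hF (MvPolynomial.mem_support_iff.1 hs)
  rw [Finsupp.weight_apply, Finsupp.sum_fintype _ _ (by simp), Fintype.sum_sum_type] at h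
  simp only [Sum.elim_inl, Sum.elim_inr] at h
  have h1 := congrArg Prod.fst h
  have h2 := congrArg Prod.snd h
  simp only [Prod.fst_add, Prod.snd_add, Prod.fst_sum, Prod.snd_sum, Prod.smul_fst, Prod.smul_snd,
    smul_eq_mul, mul_one, mul_zero, Finset.sum_const_zero, add_zero, zero_add] at h1 h2
  exact ⟨h1, h2⟩

variable {k : Type} [Field k] [NumberField k]

lemma scale2 {d e : ℕ} {F : MvPolynomial (Fin 2 ⊕ Fin 2) k} (hF : Bihom F d e) (g h : k)
    (x y : Fin 2 → k) :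
    MvPolynomial.eval (Sum.elim (fun i => g * x i) (fun j => h * y j)) F =
      g ^ d * h ^ e * MvPolynomial.eval (Sum.elim x y) F := by
  rw [MvPolynomial.eval_eq', MvPolynomial.eval_eq', Finset.mul_sum]
  refine Finset.sum_congr rfl fun s hs => ?_
  obtain ⟨h1, h2⟩ := degs hF hs
  rw [Fintype.prod_sum_type, Fintype.prod_sum_type]
  simp only [Sum.elim_inl, Sum.elim_inr, mul_pow]
  rw [Finset.prod_mul_distrib, Finset.prod_mul_distrib, Finset.prod_pow_eq_pow_sum,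
    Finset.prod_pow_eq_pow_sum, h1, h2]
  ring

/-- the value at tuples of natural numbers -/
noncomputable def ev2 (F : MvPolynomial (Fin 2 ⊕ Fin 2) (𝓞 k)) (a b : Fin 2 → ℕ) : 𝓞 k :=
  MvPolynomial.eval (Sum.elim (fun i => ((a i : ℕ) : 𝓞 k)) (fun j => ((b j : ℕ) : 𝓞 k))) F

/-- the ideal of the point `((1 : 1), (1 : 1))` -/
noncomputable def idZ2 (k : Type) [Field k] : Ideal (MvPolynomial (Fin 2 ⊕ Fin 2) (𝓞 k)) :=
  Ideal.span {MvPolynomial.X (Sum.inl 1) - MvPolynomial.X (Sum.inl 0),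
    MvPolynomial.X (Sum.inr 1) - MvPolynomial.X (Sum.inr 0)}

lemma ev2_dvd {μ : ℕ} {F : MvPolynomial (Fin 2 ⊕ Fin 2) (𝓞 k)} (hF : F ∈ idZ2 k ^ μ)
    (a b : Fin 2 → ℕ) (P : ℕ) (ha : (P : ℤ) ∣ (a 1 : ℤ) - a 0) (hb : (P : ℤ) ∣ (b 1 : ℤ) - b 0) :
    ∃ z : 𝓞 k, ev2 F a b = ((P ^ μ : ℕ) : 𝓞 k) * z := by
  let e := MvPolynomial.eval
    (Sum.elim (fun i => ((a i : ℕ) : 𝓞 k)) (fun j => ((b j : ℕ) : 𝓞 k)))
  have h1 : (idZ2 k).map e ≤ Ideal.span {((P : ℕ) : 𝓞 k)} := by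
    unfold idZ2
    rw [Ideal.map_span, Ideal.span_le]
    rintro _ ⟨_, (rfl | rfl), rfl⟩
    · rw [SetLike.mem_coe, Ideal.mem_span_singleton]
      obtain ⟨c, hc⟩ := ha
      refine ⟨(c : 𝓞 k), ?_⟩
      have := congrArg (fun z : ℤ => (z : 𝓞 k)) hc
      push_cast at this
      simp [e, this]
    · rw [SetLike.mem_coe, Ideal.mem_span_singleton]
      obtain ⟨c, hc⟩ := hb
      refine ⟨(c : 𝓞 k), ?_⟩
      have := congrArg (fun z : ℤ => (z : 𝓞 k)) hc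
      push_cast at this
      simp [e, this]
  have h2 : e F ∈ Ideal.span {((P : ℕ) : 𝓞 k)} ^ μ := Ideal.pow_right_mono h1 μ (by
    rw [← Ideal.map_pow]
    exact Ideal.mem_map_of_mem e hF)
  rw [Ideal.span_singleton_pow, Ideal.mem_span_singleton] at h2
  obtain ⟨z, hz⟩ := h2
  refine ⟨z, ?_⟩
  push_cast
  exact hz

lemma ev2_coe (F : MvPolynomial (Fin 2 ⊕ Fin 2) (𝓞 k)) (a b : Fin 2 → ℕ) :
    ((ev2 F a b : 𝓞 k) : k) =
      MvPolynomial.eval (Sum.elim (fun i => ((a i : ℕ) : k)) (fun j => ((b j : ℕ) : k)))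
        (F.map (algebraMap (𝓞 k) k)) := by
  unfold ev2
  rw [MvPolynomial.eval_map]
  change algebraMap (𝓞 k) k _ = _
  rw [← MvPolynomial.eval₂_id, MvPolynomial.hom_eval₂]
  simp only [RingHom.comp_id]
  congr 1
  funext i
  rcases i with i | i <;> simp

lemma abs_le2 (v : InfinitePlace k) {d e : ℕ} (F : MvPolynomial (Fin 2 ⊕ Fin 2) (𝓞 k))
    (hF : Bihom F d e) (a b : Fin 2 → ℕ) (M M' : ℕ) (ha : ∀ i, a i ≤ M) (hb : ∀ i, b i ≤ M') :
    v ((ev2 F a b : 𝓞 k) : k) ≤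
      (∑ s ∈ F.support, v ((F.coeff s : 𝓞 k) : k)) * ((M : ℝ) ^ d * (M' : ℝ) ^ e) := by
  have h0 : ((ev2 F a b : 𝓞 k) : k) = ∑ s ∈ F.support, ((F.coeff s : 𝓞 k) : k) *
      ((∏ i, ((a i : ℕ) : k) ^ s (Sum.inl i)) * ∏ j, ((b j : ℕ) : k) ^ s (Sum.inr j)) := by
    unfold ev2
    rw [MvPolynomial.eval_eq']
    simp only [Fintype.prod_sum_type, Sum.elim_inl, Sum.elim_inr]
    push_cast
    rfl
  rw [h0, Finset.sum_mul]
  have h1 : ∀ (f : (Fin 2 ⊕ Fin 2 →₀ ℕ) → k), v (∑ s ∈ F.support, f s) ≤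
      ∑ s ∈ F.support, v (f s) := fun f => v.1.sum_le _ _
  refine (h1 _).trans (Finset.sum_le_sum fun s hs => ?_)
  obtain ⟨h2, h3⟩ := degs hF hs
  rw [map_mul, map_mul, map_prod, map_prod]
  refine mul_le_mul_of_nonneg_left ?_ (apply_nonneg v _)
  refine mul_le_mul ?_ ?_ (Finset.prod_nonneg fun _ _ => apply_nonneg v _) (by positivity)
  · calc ∏ i, v (((a i : ℕ) : k) ^ s (Sum.inl i)) ≤ ∏ i, (M : ℝ) ^ s (Sum.inl i) := by
          refine Finset.prod_le_prod (fun _ _ => apply_nonneg v _) fun i _ => ?_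
          rw [map_pow, Pool.Agent.Helper892.VE.v_nat v (a i)]
          exact pow_le_pow_left₀ (Nat.cast_nonneg _) (by exact_mod_cast ha i) _
      _ = (M : ℝ) ^ d := by rw [Finset.prod_pow_eq_pow_sum, h2]
  · calc ∏ i, v (((b i : ℕ) : k) ^ s (Sum.inr i)) ≤ ∏ i, (M' : ℝ) ^ s (Sum.inr i) := by
          refine Finset.prod_le_prod (fun _ _ => apply_nonneg v _) fun i _ => ?_
          rw [map_pow, Pool.Agent.Helper892.VE.v_nat v (b i)]
          exact pow_le_pow_left₀ (Nat.cast_nonneg _) (by exact_mod_cast hb i) _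
      _ = (M' : ℝ) ^ e := by rw [Finset.prod_pow_eq_pow_sum, h3]

lemma norm_le2 {d e : ℕ} (F : MvPolynomial (Fin 2 ⊕ Fin 2) (𝓞 k)) (hF : Bihom F d e) :
    ∃ C : ℝ, 1 ≤ C ∧ ∀ (a b : Fin 2 → ℕ) (M M' : ℕ), (∀ i, a i ≤ M) → (∀ i, b i ≤ M') →
      ((Ideal.absNorm (Ideal.span {ev2 F a b}) : ℕ) : ℝ) ≤
        C * ((M : ℝ) ^ d * (M' : ℝ) ^ e) ^ finrank ℚ k := by
  classical
  set c : InfinitePlace k → ℝ := fun v => ∑ s ∈ F.support, v ((F.coeff s : 𝓞 k) : k) with hc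
  have hc1 : ∀ v : InfinitePlace k, (1 : ℝ) ≤ max (c v) 1 := fun v => le_max_right _ _
  refine ⟨∏ v : InfinitePlace k, (max (c v) 1) ^ v.mult, ?_, fun a b M M' ha hb => ?_⟩
  · have h1 : ∏ v : InfinitePlace k, (1 : ℝ) ≤ ∏ v : InfinitePlace k, (max (c v) 1) ^ v.mult :=
      Finset.prod_le_prod (fun _ _ => zero_le_one) fun v _ => one_le_pow₀ (hc1 v)
    simpa using h1
  · rw [Pool.Agent.Helper892.SW.norm_eq, ← InfinitePlace.sum_mult_eq, ← Finset.prod_pow_eq_pow_sum,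
      ← Finset.prod_mul_distrib]
    refine Finset.prod_le_prod (fun v _ => pow_nonneg (apply_nonneg _ _) _) fun v _ => ?_
    rw [← mul_pow]
    refine pow_le_pow_left₀ (apply_nonneg _ _) ?_ _
    refine (abs_le2 v F hF a b M M' ha hb).trans ?_
    exact mul_le_mul_of_nonneg_right (le_max_left _ _) (by positivity)

theorem count_gen (y z : 𝓞 k) (hy : y ≠ 0) (R p0 E : ℕ) (hR : 0 < R) (hp0 : 0 < p0)
    (hyz : y = ((p0 ^ E : ℕ) : 𝓞 k) * z) (V : Set (HeightOneSpectrum (𝓞 k)))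
    (hV : ∀ q ∈ V, ((R : ℕ) : 𝓞 k) ∈ q.asIdeal ∨ ((p0 : ℕ) : 𝓞 k) ∈ q.asIdeal ∨
      y ∈ q.asIdeal) :
    ∑ᶠ q ∈ V, Real.log (Ideal.absNorm q.asIdeal : ℕ) ≤
      finrank ℚ k * (Real.log R + Real.log p0 - E * Real.log p0) +
        Real.log (Ideal.absNorm (Ideal.span {y}) : ℕ) := by
  classical
  have hz0 : z ≠ 0 := by
    rintro rfl
    rw [mul_zero] at hyz
    exact hy hyz
  have hV' : V ⊆ {q | ((R : ℕ) : 𝓞 k) ∈ q.asIdeal} ∪ {q | ((p0 : ℕ) : 𝓞 k) ∈ q.asIdeal} ∪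
      {q | z ∈ q.asIdeal} := by
    intro q hq
    rcases hV q hq with h | h | h
    · exact Or.inl (Or.inl h)
    · exact Or.inl (Or.inr h)
    · rw [hyz] at h
      rcases q.isPrime.mem_or_mem h with h1 | h1
      · refine Or.inl (Or.inr ?_)
        push_cast at h1
        exact q.isPrime.mem_of_pow_mem _ h1
      · exact Or.inr h1
  have hfz : {q : HeightOneSpectrum (𝓞 k) | z ∈ q.asIdeal}.Finite := by
    have h0 : Ideal.span {z} ≠ 0 := by
      intro h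
      rw [Ideal.zero_eq_bot, Ideal.span_singleton_eq_bot] at h
      exact hz0 h
    refine (Ideal.finite_factors h0).subset ?_
    intro w hw
    show w.asIdeal ∣ Ideal.span {z}
    rw [Ideal.dvd_span_singleton]
    exact hw
  have hf : V.Finite := (((finite_mem k hR).union (finite_mem k hp0)).union hfz).subset hV'
  rw [finsum_mem_eq_finite_toFinset_sum _ hf]
  have hnn : ∀ q : HeightOneSpectrum (𝓞 k), 0 ≤ Real.log (Ideal.absNorm q.asIdeal : ℕ) := fun q =>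
    Real.log_natCast_nonneg _
  have hsub : hf.toFinset ⊆ (hf.toFinset.filter fun q => ((R : ℕ) : 𝓞 k) ∈ q.asIdeal) ∪
      (hf.toFinset.filter fun q => ((p0 : ℕ) : 𝓞 k) ∈ q.asIdeal) ∪
      (hf.toFinset.filter fun q => z ∈ q.asIdeal) := by
    intro q hq
    have h1 := hV' (hf.mem_toFinset.1 hq)
    simp only [Finset.mem_union, Finset.mem_filter]
    rcases h1 with (h1 | h1) | h1
    · exact Or.inl (Or.inl ⟨hq, h1⟩)
    · exact Or.inl (Or.inr ⟨hq, h1⟩)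
    · exact Or.inr ⟨hq, h1⟩
  have h1 : ∑ q ∈ hf.toFinset, Real.log (Ideal.absNorm q.asIdeal : ℕ) ≤
      ∑ q ∈ (hf.toFinset.filter fun q => ((R : ℕ) : 𝓞 k) ∈ q.asIdeal),
        Real.log (Ideal.absNorm q.asIdeal : ℕ) +
      ∑ q ∈ (hf.toFinset.filter fun q => ((p0 : ℕ) : 𝓞 k) ∈ q.asIdeal),
        Real.log (Ideal.absNorm q.asIdeal : ℕ) +
      ∑ q ∈ (hf.toFinset.filter fun q => z ∈ q.asIdeal),
        Real.log (Ideal.absNorm q.asIdeal : ℕ) := by
    refine (Finset.sum_le_sum_of_subset_of_nonneg hsub fun q _ _ => hnn q).trans ?_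
    have h2 : ∀ (s t : Finset (HeightOneSpectrum (𝓞 k))),
        ∑ q ∈ s ∪ t, Real.log (Ideal.absNorm q.asIdeal : ℕ) ≤
        ∑ q ∈ s, Real.log (Ideal.absNorm q.asIdeal : ℕ) +
          ∑ q ∈ t, Real.log (Ideal.absNorm q.asIdeal : ℕ) := by
      intro s t
      have h3 := Finset.sum_union_inter (s₁ := s) (s₂ := t)
        (f := fun q : HeightOneSpectrum (𝓞 k) => Real.log (Ideal.absNorm q.asIdeal : ℕ))
      have h4 : 0 ≤ ∑ q ∈ s ∩ t, Real.log (Ideal.absNorm q.asIdeal : ℕ) :=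
        Finset.sum_nonneg fun q _ => hnn q
      linarith
    exact (h2 _ _).trans (add_le_add_left (h2 _ _) _)
  have g1 := sum_primes_le k hR (hf.toFinset.filter fun q => ((R : ℕ) : 𝓞 k) ∈ q.asIdeal)
    (fun q hq => (Finset.mem_filter.1 hq).2)
  have g2 := sum_primes_le k hp0 (hf.toFinset.filter fun q => ((p0 : ℕ) : 𝓞 k) ∈ q.asIdeal)
    (fun q hq => (Finset.mem_filter.1 hq).2)
  have g3 := sum_le_norm z hz0 (hf.toFinset.filter fun q => z ∈ q.asIdeal)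
    (fun q hq => (Finset.mem_filter.1 hq).2)
  -- the norm of `z`
  have hNz : 0 < Ideal.absNorm (Ideal.span {z}) := by
    rw [Nat.pos_iff_ne_zero, Ne, Ideal.absNorm_eq_zero_iff, Ideal.span_singleton_eq_bot]
    exact hz0
  have h5 : Ideal.absNorm (Ideal.span {y}) =
      (p0 ^ E) ^ finrank ℚ k * Ideal.absNorm (Ideal.span {z}) := by
    rw [hyz, ← Ideal.span_singleton_mul_span_singleton, map_mul, norm_span_nat]
  have hp0r : (0 : ℝ) < p0 := by exact_mod_cast hp0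
  have hNzr : (0 : ℝ) < (Ideal.absNorm (Ideal.span {z}) : ℕ) := by exact_mod_cast hNz
  rw [h5]
  push_cast
  rw [Real.log_mul (by positivity) hNzr.ne', Real.log_pow, Real.log_pow]
  nlinarith

end Pool.Agent.Helper892.BP
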